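import Pool.Agent.MWGX.StmtsB

set_option autoImplicit false

namespace Pool.Agent.MWGX.H32

open Pool.Agent.Helper14_MV Pool.Agent.Helper2_MV
open Pool.Agent.MWK (pre)

/-- the part in front of the content `k` -/
def SS (g u : ℕ → List ℕ) (k : ℕ) : List ℕ := (List.range k).flatMap (fun i => u i ++ g i)

theorem ss_split (g u : ℕ → List ℕ) (k : ℕ) : ∀ N, k < N →
    ∃ R, SS g u N = SS g u k ++ (u k ++ (g k ++ R)) := by
  intro N
  induction N with
  | zero => intro h; omega
  | succ N ih =>
    intro h
    have e : SS g u (N + 1) = SS g u N ++ (u N ++ g N) := by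
      unfold SS
      rw [List.range_succ, List.flatMap_append, List.flatMap_cons, List.flatMap_nil,
        List.append_nil]
    by_cases hk : k = N
    · subst hk
      exact ⟨[], by rw [e, List.append_nil]⟩
    · obtain ⟨R, hR⟩ := ih (by omega)
      refine ⟨R ++ (u N ++ g N), ?_⟩
      rw [e, hR]
      simp [List.append_assoc]

theorem ghc_split (g u : ℕ → List ℕ) (N k : ℕ) (h : k < N) :
    ∃ R, ghc g u N = SS g u k ++ (u k ++ (g k ++ R)) := by
  obtain ⟨R, hR⟩ := ss_split g u k N h
  refine ⟨R ++ u N, ?_⟩
  have : ghc g u N = SS g u N ++ u N := rfl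
  rw [this, hR]
  simp [List.append_assoc]

theorem mem_ss {g u : ℕ → List ℕ} {k c : ℕ} (h : c ∈ SS g u k) :
    ∃ i < k, c ∈ u i ∨ c ∈ g i := by
  unfold SS at h
  rw [List.mem_flatMap] at h
  obtain ⟨i, hi, hc⟩ := h
  exact ⟨i, List.mem_range.1 hi, List.mem_append.1 hc⟩

/-- Covering lemma. -/
theorem cvk : CvkStmt := by
  intro N M g u l h1 h2 h3 h4
  classical
  have hex : ∀ j ≤ M, ∃ k, k < N ∧ l j ∈ g k ∧ ∀ i < k, l j ∉ g i := by
    intro j hj
    have hm : ∃ k, k < N ∧ l j ∈ g k := by
      have h := h1 j hj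
      have e : ghc g u N = SS g u N ++ u N := rfl
      rw [e, List.mem_append] at h
      rcases h with h | h
      · obtain ⟨i, hi, hc | hc⟩ := mem_ss h
        · exact absurd hc (h3 i hi.le j hj)
        · exact ⟨i, hi, hc⟩
      · exact absurd h (h3 N le_rfl j hj)
    refine ⟨Nat.find hm, (Nat.find_spec hm).1, (Nat.find_spec hm).2, ?_⟩
    intro i hi hc
    exact Nat.find_min hm hi ⟨lt_trans hi (Nat.find_spec hm).1, hc⟩
  choose! K hK1 hK2 hK3 using hex
  have mono : ∀ i j, i < j → j ≤ M → K i < K j := by
    intro i j hij hj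
    have hi : i ≤ M := by omega
    obtain ⟨R, hR⟩ := ghc_split g u N (K j) (hK1 j hj)
    have hn : l j ∉ SS g u (K j) ++ u (K j) := by
      intro h
      rcases List.mem_append.1 h with h | h
      · obtain ⟨i', hi', hc | hc⟩ := mem_ss h
        · have := hK1 j hj
          exact h3 i' (by omega) j hj hc
        · exact hK3 j hj i' hi' hc
      · exact h3 (K j) (hK1 j hj).le j hj h
    have hp : pre (ghc g u N) (l j) = (SS g u (K j) ++ u (K j)) ++ pre (g (K j)) (l j) := by
      rw [hR, ← List.append_assoc, MWK.pre_append hn, MWK.pre_append_mem (hK2 j hj)]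
    have hm := h2 i j hij hj
    rw [hp, List.mem_append, List.mem_append] at hm
    rcases hm with (hm | hm) | hm
    · obtain ⟨i', hi', hc | hc⟩ := mem_ss hm
      · have := hK1 j hj
        exact absurd hc (h3 i' (by omega) i hi)
      · by_contra hlt
        exact hK3 i hi i' (by omega) hc
    · exact absurd hm (h3 (K j) (hK1 j hj).le i hi)
    · exact absurd ⟨MWK.mem_of_mem_pre hm, hK2 j hj⟩ (h4 (K j) (hK1 j hj) i j hij hj)
  have low : ∀ j, j ≤ M → j ≤ K j := by
    intro j
    induction j with
    | zero => intro _; omega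
    | succ j ih =>
      intro hj
      have := ih (by omega)
      have := mono j (j + 1) (by omega) hj
      omega
  have up : ∀ d j, j + d ≤ M → K j + d ≤ K (j + d) := by
    intro d
    induction d with
    | zero => intro j _; simp
    | succ d ih =>
      intro j hj
      have := ih j (by omega)
      have := mono (j + d) (j + (d + 1)) (by omega) hj
      omega
  intro j hj
  refine ⟨K j, hK1 j hj, hK2 j hj, low j hj, ?_⟩
  have a := up (M - j) j (by omega)
  have e : j + (M - j) = M := by omega
  rw [e] at a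
  have b := hK1 M le_rfl
  omega

end Pool.Agent.MWGX.H32
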