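import Pool.Agent.MWGX.StmtsA

set_option autoImplicit false

namespace Pool.Agent.MWGX.H32

open Pool.Agent.Helper14_MV Pool.Agent.Helper2_MV
open Pool.Agent.MWK (pre)
open Pool.Agent.MWF (gaml)
open Pool.Agent.MWGN (nn)
open Pool.Agent.MWGQ (pw Gn E0 A0 P0)
open Pool.Agent.MWGR (X It Kaba F1 Dm Ec Es Ea Al0 Rh FE)

/-- the tail in standard form -/
theorem tailN (h5 : NrwStmt) (n : ℕ) (β : FIC) (hG : Gn n β) (U T S : List ℕ) (hU1 : 1 ∈ U)
    (hU2 : 2 ∈ U) (hT : ∀ d ∈ T, d = 1 ∨ d = 2) (hS : ∀ d ∈ S, d = 1 ∨ d = 2) (hT1 : 1 ∈ T)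
    (hT2 : 2 ∈ T) (c1 : T.count 1 + S.count 1 ≡ 1 [MOD n]) (c2 : T.count 2 + S.count 2 ≡ 1 [MOD n]) :
    RR β (U ++ (T ++ S)) (U ++ [1, 2]) := by
  have h := h5 n β hG U (T ++ S) [1, 2] [] (by
    intro d hd
    rcases List.mem_append.mp hd with hd | hd
    · rcases hT d hd with rfl | rfl
      · exact hU1
      · exact hU2
    · rcases hS d hd with rfl | rfl
      · exact hU1
      · exact hU2) (by
    intro d
    by_cases d1 : d = 1
    · subst d1
      refine ⟨⟨fun _ => by simp, fun _ => by simp [hT1]⟩, ?_⟩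
      rw [List.count_append]
      simpa using c1
    by_cases d2 : d = 2
    · subst d2
      refine ⟨⟨fun _ => by simp, fun _ => by simp [hT2]⟩, ?_⟩
      rw [List.count_append]
      simpa using c2
    have e1 : d ∉ T ++ S := by
      intro hd
      rcases List.mem_append.mp hd with hd | hd
      · rcases hT d hd with e | e
        · exact d1 e
        · exact d2 e
      · rcases hS d hd with e | e
        · exact d1 e
        · exact d2 e
    have e2 : d ∉ [1, 2] := by simp [d1, d2]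
    refine ⟨⟨fun h => absurd h e1, fun h => absurd h e2⟩, ?_⟩
    rw [List.count_eq_zero_of_not_mem e1, List.count_eq_zero_of_not_mem e2])
  simpa using h

/-- the tail of a word -/
theorem tailW {w B : List ℕ} (hw : w = pre w 3 ++ 3 :: B) (a : ℕ) (ha : a ≠ 3)
    (h : nn w a 3 = 1) : w.count a = 1 + B.count a := by
  have e : w.count a = (pre w 3 ++ 3 :: B).count a := congrArg (List.count a) hw
  rw [e, List.count_append, List.count_cons_of_ne (Ne.symm ha)]
  have : (pre w 3).count a = 1 := h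
  rw [this]

theorem esv (h1 : OxvStmt) (_h2 : MWGQ.CntStmt) (h3 : SplStmt) (h4 : XchStmt) (h5 : NrwStmt) :
    EsvStmt := by
  intro n β δ hG hE hI hD w w' hr w3 w0 w03 w1 w13 w2 w23 w12 w12' c hc
  obtain ⟨hO, hC⟩ := h1 n β hG hE w w' hr
  -- the same for the second word
  have v3 : w'.count 3 = 1 := (hO.c1 3).1 w3
  have v1 : 2 ≤ w'.count 1 := (hO.c2 1).1 w1
  have v2 : 2 ≤ w'.count 2 := (hO.c2 2).1 w2
  have v03 : nn w' 0 3 = w'.count 0 := (hO.nc 3 w3 0 (by norm_num)).1 w03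
  have v13 : nn w' 1 3 = 1 := (hO.n1 3 w3 1 (by norm_num)).1 w13
  have v23 : nn w' 2 3 = 1 := (hO.n1 3 w3 2 (by norm_num)).1 w23
  let P : ℕ → Bool := fun d => decide (d ≤ 3)
  have hP : ∀ u : List ℕ, ∀ d, P d = true → d ≠ 0 → d ≠ 1 → d ≠ 2 → nn u d 3 = 0 := by
    intro u d hd d0 d1 d2
    have hd' : d ≤ 3 := by simpa [P] using hd
    have : d = 3 := by omega
    subst this
    exact List.count_eq_zero_of_not_mem (MWK.not_mem_pre u 3)
  obtain ⟨i, j, k, B, hB, B0, B3, hF, _⟩ := h3 w w3 w03 w13 w23 P (by simp [P]) (by simp [P])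
    (by simp [P]) (by simp [P]) (hP w)
  obtain ⟨i', j', k', B', hB', B0', B3', _, hF'⟩ := h3 w' v3 v03 v13 v23 P (by simp [P])
    (by simp [P]) (by simp [P]) (by simp [P]) (hP w')
  obtain ⟨hi, hij, hw⟩ := hF w12
  obtain ⟨_, _, hw'⟩ := hF' w12'
  have n1 := tailW hB 1 (by norm_num) w13
  have n2 := tailW hB 2 (by norm_num) w23
  have n1' := tailW hB' 1 (by norm_num) v13
  have n2' := tailW hB' 2 (by norm_num) v23
  have cP : ∀ (L : List ℕ) (a : ℕ), a ≤ 3 → (L.filter P).count a = L.count a := by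
    intro L a ha
    exact List.count_filter (by simpa [P] using ha)
  have mP : ∀ (L : List ℕ), 0 ∉ L → 3 ∉ L → ∀ d ∈ L.filter P, d = 1 ∨ d = 2 := by
    intro L l0 l3 d hd
    obtain ⟨hd1, hd2⟩ := List.mem_filter.mp hd
    have hd' : d ≤ 3 := by simpa [P] using hd2
    have a0 : d ≠ 0 := fun e => l0 (e ▸ hd1)
    have a3 : d ≠ 3 := fun e => l3 (e ▸ hd1)
    omega
  have t1 : 1 ∈ B.filter P := by
    rw [← List.count_pos_iff, cP B 1 (by norm_num)]; omega
  have t2 : 2 ∈ B.filter P := by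
    rw [← List.count_pos_iff, cP B 2 (by norm_num)]; omega
  have t1' : 1 ∈ B'.filter P := by
    rw [← List.count_pos_iff, cP B' 1 (by norm_num)]; omega
  have t2' : 2 ∈ B'.filter P := by
    rw [← List.count_pos_iff, cP B' 2 (by norm_num)]; omega
  have z0 : 0 ∉ B.filter P := fun h => B0 (List.mem_filter.mp h).1
  have z3 : 3 ∉ B.filter P := fun h => B3 (List.mem_filter.mp h).1
  have z0' : 0 ∉ B'.filter P := fun h => B0' (List.mem_filter.mp h).1
  have z3' : 3 ∉ B'.filter P := fun h => B3' (List.mem_filter.mp h).1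
  have hfil : RR β (w.filter P) (w'.filter P) := hr.filter P
  rw [hw, hw'] at hfil
  have hj : j ≡ c [MOD δ] := by
    have e : i + j ≡ i + c [MOD δ] := by
      rw [hij, hi]
      exact hc
    exact Nat.ModEq.add_left_cancel' i e
  have key := h4 n β δ hG hI hD i j k i' j' k' (B.filter P) (B'.filter P) t1 t2 t1' t2' z0 z3 z0'
    z3' hfil c hj
  -- the common tail
  have hn := hG.pos
  have mod1 : ∀ a : ℕ, a + ((n - 1) * a + 1) ≡ 1 [MOD n] := by
    intro a
    have e : a + ((n - 1) * a + 1) = n * a + 1 := by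
      obtain ⟨m, rfl⟩ : ∃ m, n = m + 1 := ⟨n - 1, by omega⟩
      simp only [Nat.add_sub_cancel]
      ring
    rw [e]
    simp [Nat.ModEq]
  let f := (n - 1) * (B.filter P).count 1 + 1
  let g := (n - 1) * (B.filter P).count 2 + 1
  let S : List ℕ := List.replicate f 1 ++ List.replicate g 2
  have S1 : S.count 1 = f := by
    simp [S, List.count_append, List.count_replicate]
  have S2 : S.count 2 = g := by
    simp [S, List.count_append, List.count_replicate]
  have hS : ∀ d ∈ S, d = 1 ∨ d = 2 := by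
    intro d hd
    rcases List.mem_append.mp hd with hd | hd
    · exact Or.inl (List.eq_of_mem_replicate hd)
    · exact Or.inr (List.eq_of_mem_replicate hd)
  have m1 : (B.filter P).count 1 + S.count 1 ≡ 1 [MOD n] := by
    rw [S1]; exact mod1 _
  have m2 : (B.filter P).count 2 + S.count 2 ≡ 1 [MOD n] := by
    rw [S2]; exact mod1 _
  have k1 : (B'.filter P).count 1 ≡ (B.filter P).count 1 [MOD n] := by
    rw [cP B' 1 (by norm_num), cP B 1 (by norm_num)]
    have := (hC 1).symm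
    rw [n1, n1'] at this
    exact Nat.ModEq.add_left_cancel' 1 this
  have k2 : (B'.filter P).count 2 ≡ (B.filter P).count 2 [MOD n] := by
    rw [cP B' 2 (by norm_num), cP B 2 (by norm_num)]
    have := (hC 2).symm
    rw [n2, n2'] at this
    exact Nat.ModEq.add_left_cancel' 1 this
  have m1' : (B'.filter P).count 1 + S.count 1 ≡ 1 [MOD n] :=
    (Nat.ModEq.add_right _ k1).trans m1
  have m2' : (B'.filter P).count 2 + S.count 2 ≡ 1 [MOD n] :=
    (Nat.ModEq.add_right _ k2).trans m2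
  have a1 := tailN h5 n β hG (X n ++ 1 :: (X (n + c) ++ 2 :: (X n ++ [3]))) (B.filter P) S
    (by simp) (by simp) (mP B B0 B3) hS t1 t2 m1 m2
  have a2 := tailN h5 n β hG
    (X (n + c) ++ 2 :: (X (n + (n - 1) * c) ++ 1 :: (X (n + c) ++ [3]))) (B'.filter P) S
    (by simp) (by simp) (mP B' B0' B3') hS t1' t2' m1' m2'
  have a3 := RR.append key (RR.refl (β := β) S)
  have b1 : (X n ++ 1 :: (X (n + c) ++ 2 :: (X n ++ 3 :: B.filter P))) ++ S =
      (X n ++ 1 :: (X (n + c) ++ 2 :: (X n ++ [3]))) ++ (B.filter P ++ S) := by simp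
  have b2 : (X (n + c) ++ 2 :: (X (n + (n - 1) * c) ++ 1 :: (X (n + c) ++ 3 :: B'.filter P))) ++ S =
      (X (n + c) ++ 2 :: (X (n + (n - 1) * c) ++ 1 :: (X (n + c) ++ [3]))) ++
        (B'.filter P ++ S) := by simp
  rw [b1, b2] at a3
  have a4 := β.trans (RR.symm a1) (β.trans a3 a2)
  have b3 : (X n ++ 1 :: (X (n + c) ++ 2 :: (X n ++ [3]))) ++ [1, 2] =
      X n ++ 1 :: (X (n + c) ++ 2 :: (X n ++ [3, 1, 2])) := by simp
  have b4 : (X (n + c) ++ 2 :: (X (n + (n - 1) * c) ++ 1 :: (X (n + c) ++ [3]))) ++ [1, 2] =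
      X (n + c) ++ 2 :: (X (n + (n - 1) * c) ++ 1 :: (X (n + c) ++ [3, 1, 2])) := by simp
  rw [b3, b4] at a4
  exact a4

end Pool.Agent.MWGX.H32
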